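import Mathlib

set_option autoImplicit false

/-!
Groups `P / [N, N]` for free products `P`, and elements detected by them.
-/

universe u v w

namespace Pool.Agent.Y75.BF.Gr

/-- The free product of the free group on `X` and the groups `T i`. -/
def FP (X I : Type u) (T : I → Type u) [∀ i, Group (T i)] : Type u :=
  Monoid.Coprod (FreeGroup X) (Monoid.CoprodI T)

instance (X I : Type u) (T : I → Type u) [∀ i, Group (T i)] : Group (FP X I T) :=
  Monoid.Coprod.instGroup

variable {X I : Type u} {T : I → Type u} [∀ i, Group (T i)]

/-- The inclusion of the free group. -/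
def inF : FreeGroup X →* FP X I T :=
  (Monoid.Coprod.inl : FreeGroup X →* Monoid.Coprod (FreeGroup X) (Monoid.CoprodI T))

/-- The inclusion of the free product of the `T i`. -/
def inC : Monoid.CoprodI T →* FP X I T :=
  (Monoid.Coprod.inr : Monoid.CoprodI T →* Monoid.Coprod (FreeGroup X) (Monoid.CoprodI T))

/-- The free generators. -/
def ofX (x : X) : FP X I T := inF (FreeGroup.of x)

/-- The factors. -/
def ofT (i : I) : T i →* FP X I T := inC.comp Monoid.CoprodI.of

end Pool.Agent.Y75.BF.Gr

namespace Pool.Agent.Y75.BF

open Pool.Agent.Y75.BF.Gr (FP ofT)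

/-- The element `g` has infinite order. -/
def InfOrd {G : Type v} [Group G] (g : G) : Prop := ∀ n : ℕ, 0 < n → g ^ n ≠ 1

/-- The element `g` is not conjugate to a proper power of itself. -/
def NoPow {G : Type v} [Group G] (g : G) : Prop := ∀ m : ℕ, 2 ≤ m → ¬ IsConj g (g ^ m)

/-- A free product `P = FP X I T` of the free group on `X` and of groups `T i`, with a normal
subgroup `N` of `P`. -/
structure Rel : Type (v + 1) where
  /-- The free generators. -/
  X : Type v
  /-- The index set. -/
  I : Type v
  /-- The factors. -/
  T : I → Type v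
  /-- The factors are groups. -/
  grp : ∀ i, Group (T i)
  /-- The normal subgroup. -/
  N : Subgroup (FP X I T)
  /-- It is normal. -/
  normal : N.Normal

/-- The group `P / N`. -/
def Rel.Q (r : Rel.{v}) : Type v :=
  letI := r.grp
  FP r.X r.I r.T ⧸ r.N

instance (r : Rel.{v}) : Group r.Q :=
  letI := r.grp
  letI := r.normal
  QuotientGroup.Quotient.group r.N

/-- The group `P / [N, N]`. -/
def Rel.G (r : Rel.{v}) : Type v :=
  letI := r.grp
  FP r.X r.I r.T ⧸ ⁅r.N, r.N⁆

instance (r : Rel.{v}) : Group r.G :=
  letI := r.grp
  letI := r.normal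
  QuotientGroup.Quotient.group ⁅r.N, r.N⁆

instance (r : Rel.{v}) (i : r.I) : Group (r.T i) := r.grp i

/-- The image in `P / N` of an element of a factor `T i`. -/
def Rel.img (r : Rel.{v}) (i : r.I) (t : r.T i) : r.Q :=
  letI := r.grp
  (QuotientGroup.mk (ofT i t) : FP r.X r.I r.T ⧸ r.N)

/-- The normal subgroup `N` of `P` is *tame* if it meets all `T i` trivially and the elements of
infinite order of the `T i` are not conjugate to proper powers modulo `N`. -/
def Rel.Tame (r : Rel.{v}) : Prop :=
  ∀ (i : r.I) (t : r.T i), (r.img i t = 1 → t = 1) ∧ (InfOrd t → NoPow (r.img i t))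

/-- The element `h` of `H` has image of infinite order under some homomorphism from `H` to a group
`P / [N, N]` with `N` tame. -/
def HasMap.{a, b} (H : Type b) [Group H] (h : H) : Prop :=
  ∃ (r : Rel.{a}) (s : H →* r.G), r.Tame ∧ InfOrd (s h)

/-- The element `h` of `H` is *detected*: every finitely generated subgroup `H0` containing `h` has a
homomorphism `s` to a group `P / [N, N]`, with `N` tame, such that `s h` has infinite order. -/
def Detected.{a, b} (H : Type b) [Group H] (h : H) : Prop :=
  ∀ (H0 : Subgroup H) (_ : H0.FG) (hh : h ∈ H0), HasMap.{a, b} H0 ⟨h, hh⟩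

end Pool.Agent.Y75.BF
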