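import Pool.Agent.Y75.BF.Gr
import Pool.Agent.Y75.BF.Defs

set_option autoImplicit false

/-!
The Magnus embedding of `P / [N, N]` for a free product `P` of a free group and arbitrary groups and a
normal subgroup `N` meeting the factors trivially.
-/

namespace Pool.Agent.Y75.BF.Gr

open Finsupp

universe u v w

section Sd

variable (Γ : Type u) (E : Type v) [Group Γ] [MulAction Γ E]

/-- The semidirect product of the `1`-chains and `Γ`. -/
@[ext] structure Sd where
  /-- The chain. -/
  m : E →₀ ℤ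
  /-- The group element. -/
  g : Γ

variable {Γ E}

noncomputable instance : Mul (Sd Γ E) := ⟨fun a b => ⟨a.m + ac a.g b.m, a.g * b.g⟩⟩
noncomputable instance : One (Sd Γ E) := ⟨⟨0, 1⟩⟩
noncomputable instance : Inv (Sd Γ E) := ⟨fun a => ⟨-(ac a.g⁻¹ a.m), a.g⁻¹⟩⟩

theorem sd_mul (a b : Sd Γ E) : a * b = ⟨a.m + ac a.g b.m, a.g * b.g⟩ := rfl
theorem sd_one : (1 : Sd Γ E) = ⟨0, 1⟩ := rfl
theorem sd_inv (a : Sd Γ E) : a⁻¹ = ⟨-(ac a.g⁻¹ a.m), a.g⁻¹⟩ := rfl

noncomputable instance : Group (Sd Γ E) := Group.ofLeftAxioms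
  (by
    intro a b c
    simp only [sd_mul, map_add, ac_mul, mul_assoc, add_assoc])
  (by
    intro a
    simp only [sd_mul, sd_one, zero_add, ac_one, one_mul])
  (by
    intro a
    simp only [sd_mul, sd_one, sd_inv, neg_add_cancel, inv_mul_cancel])

/-- The projection. -/
noncomputable def sdG : Sd Γ E →* Γ where
  toFun a := a.g
  map_one' := rfl
  map_mul' _ _ := rfl

end Sd

section FPd

variable {X I : Type u} {T : I → Type u} [∀ i, Group (T i)]

/-- The universal property. -/
def liftP {G : Type w} [Group G] (f : FreeGroup X →* G) (g : Monoid.CoprodI T →* G) :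
    FP X I T →* G :=
  (Monoid.Coprod.lift f g : Monoid.Coprod (FreeGroup X) (Monoid.CoprodI T) →* G)

theorem liftP_inF {G : Type w} [Group G] (f : FreeGroup X →* G) (g : Monoid.CoprodI T →* G)
    (a : FreeGroup X) : liftP f g (inF a) = f a :=
  Monoid.Coprod.lift_apply_inl f g a

theorem liftP_inC {G : Type w} [Group G] (f : FreeGroup X →* G) (g : Monoid.CoprodI T →* G)
    (a : Monoid.CoprodI T) : liftP f g (inC a) = g a :=
  Monoid.Coprod.lift_apply_inr f g a

theorem fp_ind {p : FP X I T → Prop} (h1 : p 1) (hx : ∀ x, p (ofX x)) (hxi : ∀ x, p (ofX x)⁻¹)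
    (ht : ∀ i (t : T i), p (ofT i t)) (hm : ∀ a b, p a → p b → p (a * b)) (w : FP X I T) : p w := by
  have hl : ∀ a : FreeGroup X, p (inF a) := by
    intro a
    induction a using FreeGroup.induction_on with
    | C1 => rw [map_one]; exact h1
    | of x => exact hx x
    | inv_of x _ => rw [map_inv]; exact hxi x
    | mul a b ha hb => rw [map_mul]; exact hm _ _ ha hb
  have hr : ∀ a : Monoid.CoprodI T, p (inC a) := by
    intro a
    induction a using Monoid.CoprodI.induction_on with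
    | one => rw [map_one]; exact h1
    | of i t => exact ht i t
    | mul a b ha hb => rw [map_mul]; exact hm _ _ ha hb
  exact Monoid.Coprod.induction_on (motive := p) w hl hr hm

end FPd

section Emb

variable {X I : Type u} {T : I → Type u} [∀ i, Group (T i)] (N : Subgroup (FP X I T)) [N.Normal]

/-- The quotient `P / N`. -/
abbrev QN : Type u := FP X I T ⧸ N

/-- The quotient `P / [N, N]`. -/
abbrev GN : Type u := FP X I T ⧸ ⁅N, N⁆

/-- The class of a word modulo `N`. -/
def q (w : FP X I T) : QN N := QuotientGroup.mk w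

theorem q_mul (a b : FP X I T) : q N (a * b) = q N a * q N b := rfl
theorem q_one : q N 1 = 1 := rfl
theorem q_inv (a : FP X I T) : q N a⁻¹ = (q N a)⁻¹ := rfl

/-- The edges. -/
structure Ed : Type u where
  /-- The source. -/
  v : QN N
  /-- The label. -/
  x : X ⊕ I

noncomputable instance : MulAction (QN N) (Ed N) where
  smul g e := ⟨g * e.v, e.x⟩
  one_smul e := by
    change (⟨1 * e.v, e.x⟩ : Ed N) = e
    rw [one_mul]
  mul_smul g h e := by
    change (⟨g * h * e.v, e.x⟩ : Ed N) = ⟨g * (h * e.v), e.x⟩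
    rw [mul_assoc]

variable {N} in
theorem ed_smul (g : QN N) (e : Ed N) : g • e = ⟨g * e.v, e.x⟩ := rfl

/-- The image of a factor. -/
def SS (i : I) : Subgroup (QN N) := ((QuotientGroup.mk' N).comp (ofT i)).range

/-- The vertices. -/
abbrev Ve : Type u := QN N ⊕ (Σ i : I, QN N ⧸ SS N i)

/-- The source of an edge. -/
def es (e : Ed N) : Ve N := Sum.inl e.v

/-- The target of an edge. -/
def et (e : Ed N) : Ve N :=
  match e.x with
  | Sum.inl x => Sum.inl (e.v * q N (ofX x))
  | Sum.inr i => Sum.inr ⟨i, QuotientGroup.mk e.v⟩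

theorem es_smul (g : QN N) (e : Ed N) : es N (g • e) = g • es N e := rfl

theorem et_smul (g : QN N) (e : Ed N) : et N (g • e) = g • et N e := by
  obtain ⟨v, x⟩ := e
  cases x with
  | inl x => exact congrArg Sum.inl (mul_assoc g v _)
  | inr i => rfl

/-- The Magnus homomorphism on `P`. -/
noncomputable def magP : FP X I T →* Sd (QN N) (Ed N) :=
  liftP
    (FreeGroup.lift fun x => ⟨single ⟨1, Sum.inl x⟩ 1, q N (ofX x)⟩)
    (Monoid.CoprodI.lift fun i =>
      { toFun := fun t => ⟨single ⟨1, Sum.inr i⟩ 1 - single ⟨q N (ofT i t), Sum.inr i⟩ 1,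
          q N (ofT i t)⟩
        map_one' := by
          rw [map_one, q_one, sub_self]; rfl
        map_mul' := by
          intro a b
          rw [map_mul, q_mul, sd_mul]
          simp only [map_sub, ac_single, ed_smul, mul_one]
          congr 1
          abel })

theorem magP_ofX (x : X) : magP N (ofX x) = ⟨single ⟨1, Sum.inl x⟩ 1, q N (ofX x)⟩ := by
  unfold magP
  rw [ofX, liftP_inF, FreeGroup.lift_apply_of]
  rfl

theorem magP_ofT (i : I) (t : T i) : magP N (ofT i t) =
    ⟨single ⟨1, Sum.inr i⟩ 1 - single ⟨q N (ofT i t), Sum.inr i⟩ 1, q N (ofT i t)⟩ := by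
  unfold magP
  conv_lhs => rw [ofT, MonoidHom.comp_apply, liftP_inC, Monoid.CoprodI.lift_of]
  rfl

theorem magP_g (w : FP X I T) : (magP N w).g = q N w := by
  induction w using fp_ind with
  | h1 => rw [map_one]; rfl
  | hx x => rw [magP_ofX]
  | hxi x => rw [map_inv, sd_inv, magP_ofX]; rfl
  | ht i t => rw [magP_ofT]
  | hm a b ha hb => rw [map_mul, sd_mul, q_mul, ← ha, ← hb]

/-- The label of a word. -/
noncomputable def cP (w : FP X I T) : Ed N →₀ ℤ := (magP N w).m

theorem cP_mul (a b : FP X I T) : cP N (a * b) = cP N a + ac (q N a) (cP N b) := by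
  unfold cP
  rw [map_mul, sd_mul, magP_g]

theorem cP_one : cP N 1 = 0 := by
  unfold cP
  rw [map_one]; rfl

theorem cP_inv (a : FP X I T) : cP N a⁻¹ = -(ac (q N a)⁻¹ (cP N a)) := by
  unfold cP
  rw [map_inv, sd_inv, magP_g]

theorem cP_ofX (x : X) : cP N (ofX x) = single ⟨1, Sum.inl x⟩ 1 := by
  unfold cP
  rw [magP_ofX]

theorem cP_ofT (i : I) (t : T i) :
    cP N (ofT i t) = single ⟨1, Sum.inr i⟩ 1 - single ⟨q N (ofT i t), Sum.inr i⟩ 1 := by
  unfold cP
  rw [magP_ofT]

theorem del_cP (w : FP X I T) : bd (es N) (et N) (cP N w) =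
    single (Sum.inl (q N w) : Ve N) 1 - single (Sum.inl 1) 1 := by
  have hsm : ∀ (g h : QN N), g • (Sum.inl h : Ve N) = Sum.inl (g * h) := fun _ _ => rfl
  induction w using fp_ind with
  | h1 => rw [cP_one, map_zero, q_one, sub_self]
  | hx x =>
    rw [cP_ofX, bd_single]
    change single (Sum.inl (1 * q N (ofX x)) : Ve N) 1 - single (Sum.inl 1) 1 = _
    rw [one_mul]
  | hxi x =>
    rw [cP_inv, map_neg, bd_ac (es_smul N) (et_smul N), cP_ofX, bd_single]
    change -(ac (q N (ofX x))⁻¹ (single (Sum.inl (1 * q N (ofX x)) : Ve N) 1 -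
      single (Sum.inl 1) 1)) = _
    rw [one_mul, map_sub, ac_single, ac_single, hsm, hsm, inv_mul_cancel, mul_one, q_inv]
    abel
  | ht i t =>
    rw [cP_ofT, map_sub, bd_single, bd_single]
    change single (Sum.inr ⟨i, QuotientGroup.mk (1 : QN N)⟩ : Ve N) (1 : ℤ) -
      single (Sum.inl 1) 1 - (single (Sum.inr ⟨i, QuotientGroup.mk (q N (ofT i t))⟩) 1 -
        single (Sum.inl (q N (ofT i t))) 1) = _
    have h1 : (QuotientGroup.mk (q N (ofT i t)) : QN N ⧸ SS N i) = QuotientGroup.mk (1 : QN N) := by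
      rw [QuotientGroup.eq, mul_one]
      exact inv_mem ⟨t, rfl⟩
    rw [h1]
    abel
  | hm a b ha hb =>
    rw [cP_mul, map_add, bd_ac (es_smul N) (et_smul N), ha, hb, map_sub, ac_single, ac_single,
      hsm, hsm, mul_one, q_mul]
    abel

theorem magP_comm (r s : FP X I T) (hr : r ∈ N) (hs : s ∈ N) :
    magP N r * magP N s = magP N s * magP N r := by
  have hr1 : q N r = 1 := (QuotientGroup.eq_one_iff _).mpr hr
  have hs1 : q N s = 1 := (QuotientGroup.eq_one_iff _).mpr hs
  rw [sd_mul, sd_mul, magP_g, magP_g, hr1, hs1, ac_one, ac_one, add_comm]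

theorem commutator_le : ⁅N, N⁆ ≤ (magP N).ker := by
  rw [Subgroup.commutator_le]
  intro r hr s hs
  rw [MonoidHom.mem_ker, commutatorElement_def, map_mul, map_mul, map_mul, map_inv, map_inv,
    magP_comm N r s hr hs, mul_inv_cancel_right, mul_inv_cancel]

/-- The Magnus homomorphism. -/
noncomputable def magQ : GN N →* Sd (QN N) (Ed N) :=
  QuotientGroup.lift ⁅N, N⁆ (magP N) (fun _ h => commutator_le N h)

theorem magQ_mk (w : FP X I T) : magQ N (QuotientGroup.mk w) = magP N w := rfl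

/-- The projection `P / [N, N] → P / N`. -/
noncomputable def gG : GN N →* QN N := sdG.comp (magQ N)

theorem gG_mk (w : FP X I T) : gG N (QuotientGroup.mk w) = q N w := magP_g N w

theorem gG_surj : Function.Surjective (gG N) := by
  intro v
  obtain ⟨w, rfl⟩ := QuotientGroup.mk_surjective v
  exact ⟨QuotientGroup.mk w, gG_mk N w⟩

/-- The kernel of the projection is commutative. -/
theorem ker_comm (a b : (gG N).ker) : a * b = b * a := by
  obtain ⟨a, ha⟩ := a
  obtain ⟨b, hb⟩ := b
  obtain ⟨r, rfl⟩ := QuotientGroup.mk_surjective a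
  obtain ⟨s, rfl⟩ := QuotientGroup.mk_surjective b
  rw [MonoidHom.mem_ker, gG_mk] at ha hb
  have hr : r ∈ N := (QuotientGroup.eq_one_iff _).mp ha
  have hs : s ∈ N := (QuotientGroup.eq_one_iff _).mp hb
  apply Subtype.ext
  change (QuotientGroup.mk (r * s) : GN N) = QuotientGroup.mk (s * r)
  rw [QuotientGroup.eq]
  have h := Subgroup.commutator_mem_commutator (H₁ := N) (H₂ := N) (inv_mem hs) (inv_mem hr)
  rw [commutatorElement_def] at h
  simpa [mul_assoc] using h

noncomputable instance kerComm : CommGroup (gG N).ker :=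
  { (inferInstance : Group (gG N).ker) with mul_comm := ker_comm N }

/-- A section. -/
noncomputable def sec (v : QN N) : GN N := (gG_surj N v).choose

theorem gG_sec (v : QN N) : gG N (sec N v) = v := (gG_surj N v).choose_spec

/-- The class of a word modulo `[N, N]`. -/
def k (w : FP X I T) : GN N := QuotientGroup.mk w

theorem gG_k (w : FP X I T) : gG N (k N w) = q N w := gG_mk N w

theorem exists_t (i : I) (v : QN N) :
    ∃ t : T i, (Quotient.out (QuotientGroup.mk v : QN N ⧸ SS N i)) * q N (ofT i t) = v := by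
  have h : (QuotientGroup.mk (Quotient.out (QuotientGroup.mk v : QN N ⧸ SS N i)) : QN N ⧸ SS N i) =
      QuotientGroup.mk v := Quotient.out_eq' _
  rw [QuotientGroup.eq] at h
  obtain ⟨t, ht⟩ := h
  refine ⟨t, ?_⟩
  change _ * ((QuotientGroup.mk' N).comp (ofT i)) t = v
  rw [ht, mul_inv_cancel_left]

/-- The element of `T i` attached to an element of `P / N`. -/
noncomputable def tt (i : I) (v : QN N) : T i := (exists_t N i v).choose

/-- The representative of the coset. -/
noncomputable def rr (i : I) (v : QN N) : QN N := Quotient.out (QuotientGroup.mk v : QN N ⧸ SS N i)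

theorem rr_tt (i : I) (v : QN N) : rr N i v * q N (ofT i (tt N i v)) = v :=
  (exists_t N i v).choose_spec

theorem rr_mul (i : I) (v : QN N) (t : T i) : rr N i (v * q N (ofT i t)) = rr N i v := by
  unfold rr
  congr 1
  rw [QuotientGroup.eq]
  refine ⟨t⁻¹, ?_⟩
  rw [map_inv]
  change (q N (ofT i t))⁻¹ = _
  group

theorem tt_mul (hN : ∀ i (t : T i), ofT i t ∈ N → t = 1) (i : I) (v : QN N) (t : T i) :
    tt N i (v * q N (ofT i t)) = tt N i v * t := by
  have h1 := rr_tt N i (v * q N (ofT i t))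
  rw [rr_mul] at h1
  have h2 : rr N i v * q N (ofT i (tt N i v * t)) = v * q N (ofT i t) := by
    rw [map_mul, q_mul, ← mul_assoc, rr_tt]
  have h3 := h1.trans h2.symm
  have h4 := mul_left_cancel h3
  have h5 : ofT i ((tt N i (v * q N (ofT i t)))⁻¹ * (tt N i v * t)) ∈ N := by
    rw [map_mul, map_inv]
    exact QuotientGroup.eq.1 h4
  exact inv_mul_eq_one.1 (hN i _ h5)

/-- The value of an edge. -/
noncomputable def eval0 (e : Ed N) : GN N :=
  match e.x with
  | Sum.inl x => sec N e.v * k N (ofX x) * (sec N (e.v * q N (ofX x)))⁻¹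
  | Sum.inr i => sec N e.v * (k N (ofT i (tt N i e.v)))⁻¹ * (sec N (rr N i e.v))⁻¹

theorem eval0_mem (e : Ed N) : eval0 N e ∈ (gG N).ker := by
  obtain ⟨v, x⟩ := e
  rw [MonoidHom.mem_ker]
  cases x with
  | inl x =>
    change gG N (sec N v * k N (ofX x) * (sec N (v * q N (ofX x)))⁻¹) = 1
    rw [map_mul, map_mul, map_inv, gG_sec, gG_sec, gG_k, mul_inv_cancel]
  | inr i =>
    change gG N (sec N v * (k N (ofT i (tt N i v)))⁻¹ * (sec N (rr N i v))⁻¹) = 1
    rw [map_mul, map_mul, map_inv, map_inv, gG_sec, gG_sec, gG_k, mul_assoc, ← mul_inv_rev, rr_tt,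
      mul_inv_cancel]

/-- The value of a chain. -/
noncomputable def lam : (Ed N →₀ ℤ) →ₗ[ℤ] Additive (gG N).ker :=
  Finsupp.linearCombination ℤ (fun e => Additive.ofMul ⟨eval0 N e, eval0_mem N e⟩)

/-- The value of a chain in the group. -/
noncomputable def lamG (m : Ed N →₀ ℤ) : GN N := ((lam N m).toMul : (gG N).ker).1

theorem lamG_add (m m' : Ed N →₀ ℤ) : lamG N (m + m') = lamG N m * lamG N m' := by
  unfold lamG
  rw [map_add]
  rfl

theorem lamG_zero : lamG N 0 = 1 := by
  unfold lamG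
  rw [map_zero]
  rfl

theorem lamG_neg (m : Ed N →₀ ℤ) : lamG N (-m) = (lamG N m)⁻¹ := by
  rw [eq_comm, inv_eq_iff_mul_eq_one, ← lamG_add, add_neg_cancel, lamG_zero]

theorem lamG_single (e : Ed N) : lamG N (single e 1) = eval0 N e := by
  unfold lamG lam
  rw [Finsupp.linearCombination_single, one_smul]
  rfl

theorem word_eq (hN : ∀ i (t : T i), ofT i t ∈ N → t = 1) (w : FP X I T) :
    ∀ v : QN N, lamG N (ac v (cP N w)) = sec N v * k N w * (sec N (v * q N w))⁻¹ := by
  induction w using fp_ind with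
  | h1 =>
    intro v
    rw [cP_one, map_zero, lamG_zero, q_one, mul_one]
    change 1 = sec N v * 1 * (sec N v)⁻¹
    rw [mul_one, mul_inv_cancel]
  | hx x =>
    intro v
    rw [cP_ofX, ac_single, ed_smul, lamG_single, mul_one]
    rfl
  | hxi x =>
    intro v
    rw [cP_inv, map_neg, lamG_neg, ← ac_mul, cP_ofX, ac_single, ed_smul, lamG_single, mul_one]
    change (sec N (v * (q N (ofX x))⁻¹) * k N (ofX x) *
      (sec N (v * (q N (ofX x))⁻¹ * q N (ofX x)))⁻¹)⁻¹ = _
    rw [inv_mul_cancel_right, mul_inv_rev, mul_inv_rev, inv_inv, q_inv]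
    change _ = sec N v * (k N (ofX x))⁻¹ * _
    rw [mul_assoc]
  | ht i t =>
    intro v
    rw [cP_ofT, map_sub, sub_eq_add_neg, lamG_add, lamG_neg, ac_single, ac_single, ed_smul,
      ed_smul, lamG_single, lamG_single, mul_one]
    change (sec N v * (k N (ofT i (tt N i v)))⁻¹ * (sec N (rr N i v))⁻¹) *
      (sec N (v * q N (ofT i t)) * (k N (ofT i (tt N i (v * q N (ofT i t)))))⁻¹ *
        (sec N (rr N i (v * q N (ofT i t))))⁻¹)⁻¹ = _
    rw [rr_mul, tt_mul N hN, map_mul]
    change (sec N v * (k N (ofT i (tt N i v)))⁻¹ * (sec N (rr N i v))⁻¹) *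
      (sec N (v * q N (ofT i t)) * (k N (ofT i (tt N i v)) * k N (ofT i t))⁻¹ *
        (sec N (rr N i v))⁻¹)⁻¹ = _
    group
  | hm a b ha hb =>
    intro v
    rw [cP_mul, map_add, lamG_add, ← ac_mul, ha, hb, q_mul]
    change _ = sec N v * (k N a * k N b) * _
    rw [mul_assoc v]
    group

theorem bd_mk (g : GN N) : bd (es N) (et N) (magQ N g).m =
    single (gG N g • (Sum.inl 1 : Ve N)) 1 - single (Sum.inl 1) 1 := by
  obtain ⟨w, rfl⟩ := QuotientGroup.mk_surjective g
  have h := del_cP N w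
  rw [gG_mk]
  have e : q N w • (Sum.inl 1 : Ve N) = Sum.inl (q N w) := congrArg Sum.inl (mul_one (q N w))
  rw [e]
  exact h

/-- The Magnus data of `P / [N, N]`. -/
noncomputable def datN (hN : ∀ i (t : T i), ofT i t ∈ N → t = 1) :
    Dat (QN N) (Ve N) (Ed N) (GN N) where
  s := es N
  t := et N
  s_smul := es_smul N
  t_smul := et_smul N
  v0 := Sum.inl 1
  γ := gG N
  c g := (magQ N g).m
  mul g h := by
    rw [map_mul, sd_mul]
    rfl
  del := bd_mk N
  inj g hγ hc := by
    obtain ⟨w, rfl⟩ := QuotientGroup.mk_surjective g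
    rw [gG_mk] at hγ
    have h := word_eq N hN w 1
    rw [hγ, ac_one, one_mul] at h
    have hc' : cP N w = 0 := hc
    rw [hc', lamG_zero] at h
    have h2 : sec N 1 * k N w = sec N 1 := by
      rw [← mul_inv_eq_one, ← h]
    exact mul_eq_left.1 h2

theorem stab_eq (v : Ve N) (x : QN N) (h : x • v = v) :
    x = 1 ∨ ∃ (i : I) (t : T i) (c : QN N), x = c * q N (ofT i t) * c⁻¹ := by
  cases v with
  | inl v =>
    have h1 : x * v = v := Sum.inl_injective h
    exact Or.inl (mul_eq_right.1 h1)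
  | inr v =>
    obtain ⟨i, c⟩ := v
    have h1 : (⟨i, x • c⟩ : Σ i : I, QN N ⧸ SS N i) = ⟨i, c⟩ := Sum.inr_injective h
    have h2 : x • c = c := eq_of_heq (Sigma.mk.inj h1).2
    obtain ⟨v, rfl⟩ := QuotientGroup.mk_surjective c
    have h3 : (QuotientGroup.mk (x * v) : QN N ⧸ SS N i) = QuotientGroup.mk v := h2
    have h4 := QuotientGroup.eq.1 h3.symm
    obtain ⟨t, ht⟩ := h4
    refine Or.inr ⟨i, t, v, ?_⟩
    have h5 : q N (ofT i t) = v⁻¹ * (x * v) := ht
    rw [h5]; group

theorem isConj_conj_pow {Γ : Type u} [Group Γ] (c y : Γ) (m : ℕ) :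
    IsConj (c * y * c⁻¹) ((c * y * c⁻¹) ^ m) ↔ IsConj y (y ^ m) := by
  rw [conj_pow]
  have h1 : IsConj y (c * y * c⁻¹) := isConj_iff.2 ⟨c, rfl⟩
  have h2 : IsConj (y ^ m) (c * y ^ m * c⁻¹) := isConj_iff.2 ⟨c, rfl⟩
  exact ⟨fun h => (h1.trans h).trans h2.symm, fun h => (h1.symm.trans h).trans h2⟩

/-- In `P / [N, N]` the elements of infinite order are not conjugate to proper powers. -/
theorem finite_of_conj_pow (hN : ∀ i (t : T i), ofT i t ∈ N → t = 1)
    (hT : ∀ i (t : T i), (∃ n : ℕ, 0 < n ∧ t ^ n = 1) ∨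
      ∀ m : ℕ, 2 ≤ m → ¬ IsConj (QuotientGroup.mk (ofT i t) : FP X I T ⧸ N)
        (QuotientGroup.mk (ofT i t) ^ m))
    (g : GN N) (m : ℕ) (hm : 2 ≤ m)
    (h : IsConj g (g ^ m)) : ∃ n : ℕ, 0 < n ∧ g ^ n = 1 := by
  obtain ⟨c, hc⟩ := isConj_iff.1 h
  refine finite_order_of_conj_pow (datN N hN) ?_ g c m hm hc
  intro v x hx
  rcases stab_eq N v x hx with rfl | ⟨i, t, d, rfl⟩
  · exact Or.inl ⟨1, one_pos, one_pow _⟩
  · rcases hT i t with ⟨n, hn, htn⟩ | hno
    · refine Or.inl ⟨n, hn, ?_⟩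
      have e : q N (ofT i t) ^ n = 1 := by
        have e1 : q N (ofT i t) = ((QuotientGroup.mk' N).comp (ofT i)) t := rfl
        rw [e1, ← map_pow, htn, map_one]
      rw [conj_pow, e, mul_one, mul_inv_cancel]
    · refine Or.inr fun m' hm' h' => hno m' hm' ?_
      exact (isConj_conj_pow d _ m').1 h'

/-- In `P / [N, N]` no nontrivial element is conjugate to a proper power, if this holds for the
nontrivial elements of the factors modulo `N`. -/
theorem one_of_conj_pow
    (hT : ∀ i (t : T i), t ≠ 1 → ∀ m : ℕ, 2 ≤ m →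
      ¬ IsConj (QuotientGroup.mk (ofT i t) : FP X I T ⧸ N) (QuotientGroup.mk (ofT i t) ^ m))
    (g : GN N) (m : ℕ) (hm : 2 ≤ m) (h : IsConj g (g ^ m)) : g = 1 := by
  have hN : ∀ i (t : T i), ofT i t ∈ N → t = 1 := by
    intro i t ht
    by_contra hne
    apply hT i t hne 2 le_rfl
    rw [(QuotientGroup.eq_one_iff _).2 ht, one_pow]
  obtain ⟨c, hc⟩ := isConj_iff.1 h
  refine eq_one_of_conj_pow (datN N hN) ?_ g c m hm hc
  intro v x hx hx1 m' hm' hc'
  rcases stab_eq N v x hx with rfl | ⟨i, t, d, rfl⟩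
  · exact hx1 rfl
  · apply hT i t _ m' hm' ((isConj_conj_pow d _ m').1 hc')
    rintro rfl
    apply hx1
    rw [map_one, q_one, mul_one, mul_inv_cancel]

end Emb

section Free

variable {X : Type u} (R : Subgroup (FreeGroup X)) [R.Normal]

/-- The trivial family. -/
abbrev TT : PEmpty.{u + 1} → Type u := fun _ => PUnit.{u + 1}

/-- The free group as a free product. -/
noncomputable def eF (X : Type u) : FreeGroup X ≃* FP X PEmpty.{u + 1} TT :=
  MonoidHom.toMulEquiv inF
    (liftP (MonoidHom.id _) (Monoid.CoprodI.lift fun i => i.elim))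
    (by
      ext x
      rw [MonoidHom.comp_apply, liftP_inF])
    (by
      ext w
      induction w using fp_ind with
      | h1 => rw [map_one, map_one]
      | hx x => rw [MonoidHom.comp_apply, ofX, liftP_inF]; rfl
      | hxi x => rw [map_inv, map_inv, MonoidHom.comp_apply, ofX, liftP_inF]; rfl
      | ht i t => exact i.elim
      | hm a b ha hb => rw [map_mul, map_mul, ha, hb])

/-- `F / [R, R]` as a group `P / [N, N]`. -/
theorem exists_inj : ∃ (N : Subgroup (FP X PEmpty.{u + 1} TT)) (_ : N.Normal)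
    (φ : FreeGroup X ⧸ ⁅R, R⁆ →* FP X PEmpty.{u + 1} TT ⧸ ⁅N, N⁆), Function.Injective φ := by
  have hn : (R.map (eF X).toMonoidHom).Normal :=
    Subgroup.Normal.map inferInstance _ (eF X).surjective
  refine ⟨R.map (eF X).toMonoidHom, hn, ?_⟩
  have hcomm : ⁅R.map (eF X).toMonoidHom, R.map (eF X).toMonoidHom⁆ =
      ⁅R, R⁆.map (eF X).toMonoidHom := (Subgroup.map_commutator R R _).symm
  refine ⟨QuotientGroup.map ⁅R, R⁆ _ (eF X).toMonoidHom (by
      rw [hcomm]
      exact Subgroup.le_comap_map _ _), ?_⟩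
  rw [injective_iff_map_eq_one]
  intro a ha
  obtain ⟨w, rfl⟩ := QuotientGroup.mk_surjective a
  have h1 : (QuotientGroup.mk (eF X w) : FP X PEmpty.{u + 1} TT ⧸
    ⁅R.map (eF X).toMonoidHom, R.map (eF X).toMonoidHom⁆) = 1 := ha
  rw [QuotientGroup.eq_one_iff, hcomm] at h1
  obtain ⟨w', hw', hw⟩ := h1
  have h2 : w' = w := (eF X).injective hw
  rw [← h2]
  exact (QuotientGroup.eq_one_iff _).2 hw'

end Free

end Pool.Agent.Y75.BF.Gr
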