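import Mathlib

set_option autoImplicit false

/-!
Groups with a Magnus embedding relative to a graph: elements which are conjugate to proper powers.
-/

namespace Pool.Agent.Y75.BF.Gr

open Finsupp

universe u v w

section Norm

/-- A finitely supported integral function whose multiple is its image under a map vanishes. -/
theorem eq_zero_of_mapDomain {O : Type u} (Y : O → O) (s : O →₀ ℤ) (m : ℕ) (hm : 2 ≤ m)
    (h : Finsupp.mapDomain Y s = m • s) : s = 0 := by
  classical
  let L : (O →₀ ℤ) →ₗ[ℤ] ℤ := Finsupp.linearCombination ℤ (fun o => Int.sign (s o))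
  have h1 : L (m • s) = m * ∑ o ∈ s.support, |s o| := by
    rw [map_nsmul, nsmul_eq_mul]
    congr 1
    change Finsupp.linearCombination ℤ (fun o => Int.sign (s o)) s = _
    rw [Finsupp.linearCombination_apply, Finsupp.sum]
    apply Finset.sum_congr rfl
    intro o _
    rw [smul_eq_mul, mul_comm, Int.sign_mul_self_eq_abs]
  have h2 : L (Finsupp.mapDomain Y s) ≤ ∑ o ∈ s.support, |s o| := by
    change Finsupp.linearCombination ℤ (fun o => Int.sign (s o)) (Finsupp.mapDomain Y s) ≤ _
    rw [Finsupp.linearCombination_mapDomain, Finsupp.linearCombination_apply, Finsupp.sum]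
    apply Finset.sum_le_sum
    intro o _
    rw [smul_eq_mul]
    have h3 : |Int.sign (s (Y o))| ≤ 1 := by
      rcases lt_trichotomy (s (Y o)) 0 with h | h | h
      · rw [Int.sign_eq_neg_one_of_neg h]; norm_num
      · rw [h]; norm_num
      · rw [Int.sign_eq_one_of_pos h]; norm_num
    calc s o * Int.sign (s (Y o)) ≤ |s o * Int.sign (s (Y o))| := le_abs_self _
      _ = |s o| * |Int.sign (s (Y o))| := abs_mul _ _
      _ ≤ |s o| * 1 := mul_le_mul_of_nonneg_left h3 (abs_nonneg _)
      _ = |s o| := mul_one _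
  rw [h, h1] at h2
  have h4 : 0 ≤ ∑ o ∈ s.support, |s o| := Finset.sum_nonneg (fun _ _ => abs_nonneg _)
  have h5 : ∑ o ∈ s.support, |s o| = 0 := by
    have h6 : (2 : ℤ) ≤ m := by exact_mod_cast hm
    nlinarith
  ext o
  by_contra hne
  have h6 := (Finset.sum_eq_zero_iff_of_nonneg (fun o _ => abs_nonneg (s o))).1 h5 o
    (Finsupp.mem_support_iff.2 hne)
  exact hne (abs_eq_zero.1 h6)

end Norm

section Chains

variable {Γ : Type u} [Group Γ] {E : Type v} [MulAction Γ E]

/-- The action on chains. -/
noncomputable def ac (g : Γ) : (E →₀ ℤ) →ₗ[ℤ] (E →₀ ℤ) :=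
  Finsupp.lmapDomain ℤ ℤ (fun e => g • e)

theorem ac_single (g : Γ) (e : E) (n : ℤ) : ac g (single e n) = single (g • e) n := by
  simp [ac]

theorem ac_one (f : E →₀ ℤ) : ac (1 : Γ) f = f := by
  change Finsupp.mapDomain (fun e => (1 : Γ) • e) f = f
  simp only [one_smul]
  exact Finsupp.mapDomain_id

theorem ac_mul (g h : Γ) (f : E →₀ ℤ) : ac (g * h) f = ac g (ac h f) := by
  change Finsupp.mapDomain (fun e => (g * h) • e) f =
    Finsupp.mapDomain (fun e => g • e) (Finsupp.mapDomain (fun e => h • e) f)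
  rw [← Finsupp.mapDomain_comp]
  congr 1
  funext e
  exact mul_smul g h e

/-- The map to the orbits of the cyclic group generated by `x`. -/
def orb (x : Γ) (E : Type v) [MulAction Γ E] (e : E) :
    MulAction.orbitRel.Quotient (Subgroup.zpowers x) E := Quotient.mk'' e

theorem orb_zpow (x : Γ) (k : ℤ) (e : E) : orb x E (x ^ k • e) = orb x E e := by
  apply Quotient.sound
  exact ⟨⟨x ^ k, k, rfl⟩, rfl⟩

theorem orb_eq {x : Γ} {e e' : E} (h : orb x E e = orb x E e') : ∃ k : ℤ, x ^ k • e' = e := by
  have h1 := Quotient.exact h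
  have h2 : e ∈ MulAction.orbit (Subgroup.zpowers x) e' := h1
  obtain ⟨⟨_, k, rfl⟩, hk⟩ := h2
  exact ⟨k, hk⟩

/-- `e - x^k e` is a multiple of `1 - x`. -/
theorem diff_mem (x : Γ) (e : E) (k : ℤ) :
    single (x ^ k • e) (1 : ℤ) - single e 1 ∈ LinearMap.range (ac (E := E) x - LinearMap.id) := by
  induction k using Int.induction_on with
  | zero =>
    rw [zpow_zero, one_smul, sub_self]
    exact Submodule.zero_mem _
  | succ n ih =>
    have h1 : single (x ^ ((n : ℤ) + 1) • e) (1 : ℤ) - single e 1 =
        (single (x ^ ((n : ℤ) + 1) • e) (1 : ℤ) - single (x ^ (n : ℤ) • e) 1) +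
        (single (x ^ (n : ℤ) • e) (1 : ℤ) - single e 1) := by abel
    rw [h1]
    refine Submodule.add_mem _ ⟨single (x ^ (n : ℤ) • e) 1, ?_⟩ ih
    rw [LinearMap.sub_apply, ac_single, LinearMap.id_apply, smul_smul, ← zpow_one_add, add_comm]
  | pred n ih =>
    have h1 : single (x ^ (-(n : ℤ) - 1) • e) (1 : ℤ) - single e 1 =
        -(single (x ^ (-(n : ℤ)) • e) (1 : ℤ) - single (x ^ (-(n : ℤ) - 1) • e) 1) +
        (single (x ^ (-(n : ℤ)) • e) (1 : ℤ) - single e 1) := by abel
    rw [h1]
    refine Submodule.add_mem _ (Submodule.neg_mem _ ⟨single (x ^ (-(n : ℤ) - 1) • e) 1, ?_⟩) ih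
    rw [LinearMap.sub_apply, ac_single, LinearMap.id_apply, smul_smul, ← zpow_one_add]
    congr 3
    congr 1
    ring

/-- A chain whose sums over the orbits of `x` vanish is a multiple of `x - 1`. -/
theorem mem_range_of_orb (x : Γ) (f : E →₀ ℤ) (h : Finsupp.mapDomain (orb x E) f = 0) :
    ∃ w : E →₀ ℤ, ac x w - w = f := by
  classical
  let σ : MulAction.orbitRel.Quotient (Subgroup.zpowers x) E → E := Quotient.out
  have hσ : ∀ e, orb x E (σ (orb x E e)) = orb x E e := fun e => Quotient.out_eq' _
  have h1 : f = f.sum (fun e n => n • (single e (1 : ℤ) - single (σ (orb x E e)) 1)) := by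
    have h2 : f.sum (fun e n => n • single (σ (orb x E e)) (1 : ℤ)) = 0 := by
      have h3 : Finsupp.mapDomain σ (Finsupp.mapDomain (orb x E) f) = 0 := by
        rw [h, Finsupp.mapDomain_zero]
      rw [← Finsupp.mapDomain_comp, Finsupp.mapDomain] at h3
      rw [← h3]
      apply Finsupp.sum_congr
      intro e _
      rw [smul_single, smul_eq_mul, mul_one]
      rfl
    have h4 : f.sum (fun e n => n • single e (1 : ℤ)) = f := by
      conv_rhs => rw [← Finsupp.sum_single f]
      apply Finsupp.sum_congr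
      intro e _
      rw [smul_single, smul_eq_mul, mul_one]
    simp only [smul_sub]
    rw [Finsupp.sum_sub, h2, h4, sub_zero]
  have h5 : f ∈ LinearMap.range (ac (E := E) x - LinearMap.id) := by
    rw [h1, Finsupp.sum]
    apply Submodule.sum_mem
    intro e _
    apply Submodule.smul_mem
    obtain ⟨k, hk⟩ := orb_eq (hσ e).symm
    have h6 := diff_mem x (σ (orb x E e)) k
    rw [hk] at h6
    exact h6
  obtain ⟨w, hw⟩ := h5
  exact ⟨w, hw⟩

theorem orb_ac (x : Γ) (k : ℕ) (f : E →₀ ℤ) :
    Finsupp.mapDomain (orb x E) (ac (x ^ k) f) = Finsupp.mapDomain (orb x E) f := by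
  change Finsupp.mapDomain (orb x E) (Finsupp.mapDomain (fun e => x ^ k • e) f) = _
  rw [← Finsupp.mapDomain_comp]
  congr 1
  funext e
  have h := orb_zpow x (k : ℤ) e
  rw [zpow_natCast] at h
  exact h

/-- The degree of a chain. -/
noncomputable def deg (E : Type v) : (E →₀ ℤ) →ₗ[ℤ] ℤ := Finsupp.linearCombination ℤ (fun _ => 1)

theorem deg_single (e : E) (n : ℤ) : deg E (single e n) = n := by
  simp [deg]

/-- A nonzero chain fixed by `x` has an element with a nontrivial power of `x` in its
stabiliser. -/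
theorem exists_fixed (x : Γ) (a : E →₀ ℤ) (ha : ac x a = a) (h0 : a ≠ 0) :
    ∃ (e : E) (n : ℕ), 0 < n ∧ x ^ n • e = e := by
  classical
  have hinv : ∀ e, a (x • e) = a e := by
    intro e
    conv_lhs => rw [← ha]
    exact Finsupp.mapDomain_apply (MulAction.injective x) a e
  have hpow : ∀ (i : ℕ) e, a (x ^ i • e) = a e := by
    intro i
    induction i with
    | zero => intro e; rw [pow_zero, one_smul]
    | succ i ih => intro e; rw [pow_succ, mul_smul, ih, hinv]
  obtain ⟨e, he⟩ := Finsupp.support_nonempty_iff.2 h0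
  have hene := Finsupp.mem_support_iff.1 he
  by_contra hcon
  push Not at hcon
  have hinj : Function.Injective (fun i : ℕ => x ^ i • e) := by
    intro i j hij
    by_contra hne
    wlog hlt : i < j generalizing i j
    · exact this hij.symm (Ne.symm hne) (by omega)
    apply hcon e (j - i) (by omega)
    have h1 : x ^ j • e = x ^ i • e := hij.symm
    have h2 : x ^ j = x ^ i * x ^ (j - i) := by rw [← pow_add]; congr 1; omega
    rw [h2, mul_smul] at h1
    exact MulAction.injective (x ^ i) h1
  have h2 : Set.range (fun i : ℕ => x ^ i • e) ⊆ a.support := by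
    rintro _ ⟨i, rfl⟩
    rw [Finset.mem_coe, Finsupp.mem_support_iff, hpow]
    exact hene
  exact (Set.infinite_range_of_injective hinj) (a.support.finite_toSet.subset h2)

/-- The degree of a chain fixed by `x` is divisible by the order of `x`, if the group generated by
`x` acts freely. -/
theorem order_dvd_deg (x : Γ) (hx : 0 < orderOf x)
    (hfree : ∀ (e : E) (n : ℕ), x ^ n • e = e → x ^ n = 1) (a : E →₀ ℤ)
    (ha : ac x a = a) : (orderOf x : ℤ) ∣ deg E a := by
  classical
  have hinv : ∀ e, a (x • e) = a e := by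
    intro e
    conv_lhs => rw [← ha]
    exact Finsupp.mapDomain_apply (MulAction.injective x) a e
  have hpow : ∀ (i : ℕ) e, a (x ^ i • e) = a e := by
    intro i
    induction i with
    | zero => intro e; rw [pow_zero, one_smul]
    | succ i ih => intro e; rw [pow_succ, mul_smul, ih, hinv]
  have hinj : ∀ (v : E) (i j : ℕ), i ≤ j → x ^ i • v = x ^ j • v → x ^ i = x ^ j := by
    intro v i j hij h
    have h2 : x ^ j = x ^ i * x ^ (j - i) := by rw [← pow_add]; congr 1; omega
    rw [h2, mul_smul] at h
    have h3 := hfree v (j - i) (MulAction.injective (x ^ i) h).symm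
    rw [h2, h3, mul_one]
  generalize hN : a.support.card = N
  induction N using Nat.strong_induction_on generalizing a with
  | _ N ih =>
  by_cases h0 : a = 0
  · rw [h0, map_zero]; exact dvd_zero _
  · obtain ⟨v, hv⟩ := Finsupp.support_nonempty_iff.2 h0
    have hvne := Finsupp.mem_support_iff.1 hv
    have hfin : orderOf x ≠ 0 := hx.ne'
    set O : Finset E := (Finset.range (orderOf x)).image (fun i => x ^ i • v) with hO
    have hOcard : O.card = orderOf x := by
      rw [hO, Finset.card_image_of_injOn, Finset.card_range]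
      intro i hi j hj hij
      have h1 : x ^ i = x ^ j := by
        rcases le_total i j with h | h
        · exact hinj v i j h hij
        · exact (hinj v j i h hij.symm).symm
      exact pow_injOn_Iio_orderOf (Finset.mem_range.1 hi) (Finset.mem_range.1 hj) h1
    have hOx : ∀ w, x • w ∈ O ↔ w ∈ O := by
      have h1 : ∀ w, w ∈ O → x • w ∈ O := by
        intro w hw
        obtain ⟨i, hi, rfl⟩ := Finset.mem_image.1 hw
        rw [hO, Finset.mem_image]
        refine ⟨(i + 1) % orderOf x, Finset.mem_range.2 (Nat.mod_lt _ (Nat.pos_of_ne_zero hfin)), ?_⟩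
        rw [pow_mod_orderOf, pow_succ', mul_smul]
      intro w
      refine ⟨fun h2 => ?_, h1 w⟩
      have h3 : ∀ n : ℕ, ∀ w, w ∈ O → x ^ n • w ∈ O := by
        intro n
        induction n with
        | zero => intro w hw; rwa [pow_zero, one_smul]
        | succ n ihn => intro w hw; rw [pow_succ', mul_smul]; exact h1 _ (ihn w hw)
      have h4 := h3 (orderOf x - 1) _ h2
      rw [← mul_smul, ← pow_succ, Nat.sub_add_cancel (Nat.pos_of_ne_zero hfin),
        pow_orderOf_eq_one, one_smul] at h4
      exact h4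
    set a' : E →₀ ℤ := a.filter (fun w => w ∉ O) with ha'
    have ha'v : ∀ w, a' w = if w ∉ O then a w else 0 := fun w => Finsupp.filter_apply _ _ _
    have ha'inv : ∀ w, a' (x • w) = a' w := by
      intro w
      rw [ha'v, ha'v, hinv]
      simp only [hOx]
    have hgv : ac x a' = a' := by
      ext w
      have h1 : ac x a' (x • (x⁻¹ • w)) = a' (x⁻¹ • w) :=
        Finsupp.mapDomain_apply (MulAction.injective x) a' _
      rw [smul_inv_smul] at h1
      rw [h1, ← ha'inv, smul_inv_smul]
    have hpow' : ∀ (i : ℕ) w, a' (x ^ i • w) = a' w := by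
      intro i
      induction i with
      | zero => intro w; rw [pow_zero, one_smul]
      | succ i ih => intro w; rw [pow_succ, mul_smul, ih, ha'inv]
    have hvO : v ∈ O := Finset.mem_image.2 ⟨0, Finset.mem_range.2 (Nat.pos_of_ne_zero hfin), by simp⟩
    have hcard : a'.support.card < N := by
      rw [← hN]
      apply Finset.card_lt_card
      rw [Finset.ssubset_iff_of_subset]
      · refine ⟨v, hv, ?_⟩
        rw [Finsupp.notMem_support_iff, ha'v, if_neg (not_not.2 hvO)]
      · intro w hw
        rw [Finsupp.mem_support_iff, ha'v] at hw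
        rw [Finsupp.mem_support_iff]
        intro h1
        apply hw
        rw [h1, ite_self]
    have h1 := ih _ hcard a' hgv ha'inv hpow' rfl
    have h2 : a = a' + ∑ w ∈ O, single w (a w) := by
      ext w
      rw [Finsupp.add_apply, ha'v, Finsupp.finsetSum_apply]
      by_cases hw : w ∈ O
      · rw [if_neg (not_not.2 hw), zero_add, Finset.sum_eq_single w]
        · rw [Finsupp.single_eq_same]
        · intro b _ hb
          rw [Finsupp.single_eq_of_ne (Ne.symm hb)]
        · intro h; exact absurd hw h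
      · rw [if_pos hw, Finset.sum_eq_zero, add_zero]
        intro b hb
        rw [Finsupp.single_eq_of_ne (by rintro rfl; exact hw hb)]
    rw [h2, map_add, map_sum]
    refine dvd_add h1 ?_
    have h3 : ∑ w ∈ O, deg E (single w (a w)) = orderOf x * a v := by
      rw [← hOcard, ← nsmul_eq_mul, ← Finset.sum_const]
      apply Finset.sum_congr rfl
      intro w hw
      obtain ⟨i, -, rfl⟩ := Finset.mem_image.1 hw
      rw [deg_single, hpow]
    rw [h3]
    exact dvd_mul_right _ _

end Chains

section Data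

variable {Γ : Type u} {V E G : Type u} [Group Γ] [MulAction Γ V] [MulAction Γ E] [Group G]

/-- The boundary. -/
noncomputable def bd (s t : E → V) : (E →₀ ℤ) →ₗ[ℤ] (V →₀ ℤ) :=
  Finsupp.linearCombination ℤ (fun e => single (t e) 1 - single (s e) 1)

theorem bd_single (s t : E → V) (e : E) :
    bd s t (single e 1) = single (t e) 1 - single (s e) 1 := by
  simp [bd]

theorem int_ind {E : Type v} {A : Type w} [AddCommGroup A] (f g : (E →₀ ℤ) →+ A)
    (h : ∀ e, f (single e 1) = g (single e 1)) : f = g := by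
  apply Finsupp.addHom_ext'
  intro e
  apply AddMonoidHom.ext_int
  exact h e

theorem bd_ac {s t : E → V} (hs : ∀ (g : Γ) e, s (g • e) = g • s e)
    (ht : ∀ (g : Γ) e, t (g • e) = g • t e) (g : Γ) (f : E →₀ ℤ) :
    bd s t (ac g f) = ac g (bd s t f) := by
  have h : ((bd s t).comp (ac g)).toAddMonoidHom = ((ac g).comp (bd s t)).toAddMonoidHom := by
    apply int_ind
    intro e
    change bd s t (ac g (single e 1)) = ac g (bd s t (single e 1))
    rw [ac_single, bd_single, bd_single, map_sub, ac_single, ac_single, hs, ht]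
  exact DFunLike.congr_fun h f

theorem deg_bd (s t : E → V) (f : E →₀ ℤ) : deg V (bd s t f) = 0 := by
  have h : ((deg V).comp (bd s t)).toAddMonoidHom = 0 := by
    apply int_ind
    intro e
    change deg V (bd s t (single e 1)) = 0
    rw [bd_single, map_sub, deg_single, deg_single, sub_self]
  exact DFunLike.congr_fun h f

/-- A group with a crossed homomorphism to the `1`-chains of a graph. -/
structure Dat (Γ V E G : Type u) [Group Γ] [MulAction Γ V] [MulAction Γ E] [Group G] where
  /-- The source. -/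
  s : E → V
  /-- The target. -/
  t : E → V
  s_smul : ∀ (g : Γ) e, s (g • e) = g • s e
  t_smul : ∀ (g : Γ) e, t (g • e) = g • t e
  /-- The base point. -/
  v0 : V
  /-- The projection. -/
  γ : G →* Γ
  /-- The crossed homomorphism. -/
  c : G → E →₀ ℤ
  mul : ∀ g h, c (g * h) = c g + ac (γ g) (c h)
  del : ∀ g, bd s t (c g) = single (γ g • v0) 1 - single v0 1
  inj : ∀ g, γ g = 1 → c g = 0 → g = 1

variable (M : Dat Γ V E G)
include M

theorem c_one : M.c 1 = 0 := by
  have h := M.mul 1 1
  rw [mul_one, map_one, ac_one] at h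
  exact left_eq_add.1 h

theorem orb_pow (g : G) (m : ℕ) :
    Finsupp.mapDomain (orb (M.γ g) E) (M.c (g ^ m)) =
      m • Finsupp.mapDomain (orb (M.γ g) E) (M.c g) := by
  induction m with
  | zero => rw [pow_zero, c_one, Finsupp.mapDomain_zero, zero_smul]
  | succ m ih =>
    rw [pow_succ, M.mul, Finsupp.mapDomain_add, ih, map_pow, orb_ac, succ_nsmul]

/-- If `g` is conjugate to a proper power, then its label is a multiple of `x - 1`. -/
theorem exists_chain (g h : G) (m : ℕ) (hm : 2 ≤ m) (hconj : h * g * h⁻¹ = g ^ m) :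
    ∃ w : E →₀ ℤ, ac (M.γ g) w - w = M.c g := by
  classical
  set x := M.γ g with hx
  set y := M.γ h with hy
  have hyx : y * x = x ^ m * y := by
    have h1 := congrArg M.γ hconj
    rw [map_mul, map_mul, map_inv, map_pow] at h1
    rw [← hx, ← hy] at h1
    rw [← h1]
    group
  -- the induced map on the orbits
  have hY : ∀ e e' : E, orb x E e = orb x E e' → orb x E (y • e) = orb x E (y • e') := by
    intro e e' hee
    obtain ⟨k, hk⟩ := orb_eq hee
    rw [← hk, smul_smul]
    have h1 : y * x ^ k = x ^ ((m : ℤ) * k) * y := by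
      have h2 : y * x * y⁻¹ = x ^ m := by rw [hyx]; group
      have h3 : y * x ^ k * y⁻¹ = (x ^ m) ^ k := by
        rw [← h2]
        exact (conj_zpow (a := y) (b := x) (i := k)).symm
      rw [zpow_mul, zpow_natCast, ← h3]
      group
    rw [h1, mul_smul, orb_zpow]
  let Y : MulAction.orbitRel.Quotient (Subgroup.zpowers x) E →
      MulAction.orbitRel.Quotient (Subgroup.zpowers x) E := fun o => orb x E (y • o.out)
  have hYe : ∀ e, Y (orb x E e) = orb x E (y • e) := by
    intro e
    apply hY
    exact Quotient.out_eq' _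
  have hrel : M.c h + ac y (M.c g) = M.c (g ^ m) + ac (x ^ m) (M.c h) := by
    have h1 : h * g = g ^ m * h := by rw [← hconj]; group
    have h2 := congrArg M.c h1
    rw [M.mul, M.mul, map_pow] at h2
    exact h2
  have hs : Finsupp.mapDomain (orb x E) (M.c g) = 0 := by
    apply eq_zero_of_mapDomain Y _ m hm
    have h1 := congrArg (Finsupp.mapDomain (orb x E)) hrel
    rw [Finsupp.mapDomain_add, Finsupp.mapDomain_add, orb_ac, orb_pow] at h1
    have h2 : Finsupp.mapDomain (orb x E) (ac y (M.c g)) =
        m • Finsupp.mapDomain (orb x E) (M.c g) := by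
      have h3 := h1
      rw [add_comm] at h3
      exact add_right_cancel h3
    rw [← h2]
    change Finsupp.mapDomain Y (Finsupp.mapDomain (orb x E) (M.c g)) =
      Finsupp.mapDomain (orb x E) (Finsupp.mapDomain (fun e => y • e) (M.c g))
    rw [← Finsupp.mapDomain_comp, ← Finsupp.mapDomain_comp]
    congr 1
    funext e
    exact hYe e
  exact mem_range_of_orb x (M.c g) hs

/-- The fixed chain. -/
theorem fixed_chain (g : G) (w : E →₀ ℤ) (hw : ac (M.γ g) w - w = M.c g) :
    ac (M.γ g) (bd M.s M.t w - single M.v0 1) = bd M.s M.t w - single M.v0 1 := by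
  have hdel := M.del g
  rw [← hw, map_sub, bd_ac M.s_smul M.t_smul] at hdel
  rw [map_sub, ac_single]
  have h1 : ac (M.γ g) (bd M.s M.t w) =
      bd M.s M.t w + (single (M.γ g • M.v0) 1 - single M.v0 1) := by
    rw [← hdel]; abel
  rw [h1]; abel

theorem c_pow (g : G) (w : E →₀ ℤ) (hw : ac (M.γ g) w - w = M.c g) (n : ℕ) :
    M.c (g ^ n) = ac (M.γ g ^ n) w - w := by
  induction n with
  | zero => rw [pow_zero, pow_zero, c_one, ac_one, sub_self]
  | succ n ih =>
    rw [pow_succ, M.mul, ih, ← hw, map_pow, map_sub, ← ac_mul, ← pow_succ]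
    abel

/-- **Proper powers.** If the elements of infinite order in the stabilisers of the vertices are not
conjugate to proper powers and `g` is conjugate to `g ^ m` with `m ≥ 2`, then `g` has finite
order. -/
theorem finite_order_of_conj_pow
    (hst : ∀ (v : V) (x : Γ), x • v = v →
      (∃ n : ℕ, 0 < n ∧ x ^ n = 1) ∨ ∀ m : ℕ, 2 ≤ m → ¬ IsConj x (x ^ m))
    (g h : G) (m : ℕ) (hm : 2 ≤ m) (hconj : h * g * h⁻¹ = g ^ m) :
    ∃ n : ℕ, 0 < n ∧ g ^ n = 1 := by
  obtain ⟨w, hw⟩ := exists_chain M g h m hm hconj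
  have hu := fixed_chain M g w hw
  have hdeg : deg V (bd M.s M.t w - single M.v0 1) = -1 := by
    rw [map_sub, deg_bd, deg_single, zero_sub]
  have hne : bd M.s M.t w - single M.v0 1 ≠ 0 := by
    intro h0
    rw [h0, map_zero] at hdeg
    exact absurd hdeg (by norm_num)
  obtain ⟨v, k, hk, hv⟩ := exists_fixed _ _ hu hne
  rcases hst v _ hv with ⟨n, hn, hxn⟩ | hno
  · refine ⟨k * n, Nat.mul_pos hk hn, ?_⟩
    rw [← pow_mul] at hxn
    apply M.inj
    · rw [map_pow, hxn]
    · rw [c_pow M g w hw, hxn, ac_one, sub_self]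
  · exfalso
    apply hno m hm
    refine isConj_iff.2 ⟨M.γ h, ?_⟩
    rw [← conj_pow, ← map_inv, ← map_mul, ← map_mul, hconj, map_pow, ← pow_mul, ← pow_mul,
      mul_comm]

/-- **No proper powers.** If the nontrivial elements of the stabilisers of the vertices are not
conjugate to proper powers and `g` is conjugate to `g ^ m` with `m ≥ 2`, then `g = 1`. -/
theorem eq_one_of_conj_pow
    (hst : ∀ (v : V) (x : Γ), x • v = v → x ≠ 1 → ∀ m : ℕ, 2 ≤ m → ¬ IsConj x (x ^ m))
    (g h : G) (m : ℕ) (hm : 2 ≤ m) (hconj : h * g * h⁻¹ = g ^ m) : g = 1 := by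
  obtain ⟨w, hw⟩ := exists_chain M g h m hm hconj
  have hu := fixed_chain M g w hw
  have hdeg : deg V (bd M.s M.t w - single M.v0 1) = -1 := by
    rw [map_sub, deg_bd, deg_single, zero_sub]
  have hne : bd M.s M.t w - single M.v0 1 ≠ 0 := by
    intro h0
    rw [h0, map_zero] at hdeg
    exact absurd hdeg (by norm_num)
  obtain ⟨v, k, hk, hv⟩ := exists_fixed _ _ hu hne
  have hxk : M.γ g ^ k = 1 := by
    by_contra hne1
    apply hst v _ hv hne1 m hm
    refine isConj_iff.2 ⟨M.γ h, ?_⟩
    rw [← conj_pow, ← map_inv, ← map_mul, ← map_mul, hconj, map_pow, ← pow_mul, ← pow_mul,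
      mul_comm]
  have hord : 0 < orderOf (M.γ g) :=
    orderOf_pos_iff.2 (isOfFinOrder_iff_pow_eq_one.2 ⟨k, hk, hxk⟩)
  have hdvd := order_dvd_deg (M.γ g) hord (fun e n he => by
    by_contra hne1
    apply hst e _ he hne1 (orderOf (M.γ g) + 1) (by omega)
    rw [← pow_mul, mul_add, mul_one, mul_comm, pow_add, pow_mul, pow_orderOf_eq_one, one_pow,
      one_mul]) _ hu
  rw [hdeg, dvd_neg] at hdvd
  have hord1 : orderOf (M.γ g) = 1 := by
    have := Int.natCast_dvd_natCast.1
      (by simpa using hdvd : ((orderOf (M.γ g) : ℕ) : ℤ) ∣ ((1 : ℕ) : ℤ))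
    exact Nat.dvd_one.1 this
  have hx1 : M.γ g = 1 := orderOf_eq_one_iff.1 hord1
  apply M.inj _ hx1
  rw [← hw, hx1, ac_one, sub_self]

end Data

end Pool.Agent.Y75.BF.Gr
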