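import Pool.Agent.H26R2.Bass.Ext
import Pool.Agent.Y75.BF.Emb

set_option autoImplicit false

/-!
The Bass trace conjecture for groups with maps to `P / [N, N]`.
-/

namespace Pool.Agent.Y75.BF

open MonoidAlgebra
open Pool.Agent.H23R2.Cyc (ell ell_single ell_mul_comm ell_eq_sum tf tf_apply tf_eq_zero)
open Pool.Agent.H26R2.IdemLI (AlmostDiv)
open Pool.Agent.H26R2.Bass
open Pool.Agent.Y75.BF.Gr

universe u v w

/-- Elements which are not conjugate to proper powers are good. -/
theorem good_of_noPower {R : Type u} [CommRing R] [IsDomain R] {G : Type v} [Group G] (h : G)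
    (hh : ∀ m : ℕ, 2 ≤ m → ¬ IsConj h (h ^ m)) : Good R h := by
  by_cases hR : CharZero R
  · refine Or.inr (Or.inr ⟨hR, ?_⟩)
    rintro ⟨m, J, hm, hJ, h1⟩
    refine hh ((m + 1) ^ J) ?_ (h1 (m + 1) (by simp))
    calc 2 ≤ m + 1 := by omega
      _ = (m + 1) ^ 1 := (pow_one _).symm
      _ ≤ (m + 1) ^ J := Nat.pow_le_pow_right (by omega) hJ
  · obtain ⟨p, hp⟩ := CharP.exists R
    have hp0 : p ≠ 0 := by
      rintro rfl
      exact hR (CharP.charP_to_charZero R)
    have hpp : p.Prime := (CharP.char_is_prime_or_zero R p).resolve_right hp0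
    refine Or.inr (Or.inl ⟨p, hpp, ?_, fun j hj => hh _ ?_⟩)
    · rw [CharP.cast_eq_zero]
      exact not_isUnit_zero
    · calc 2 ≤ p := hpp.two_le
        _ = p ^ 1 := (pow_one _).symm
        _ ≤ p ^ j := Nat.pow_le_pow_right hpp.pos hj

theorem det_pow {H : Type w} [Group H] {a : H} (n : ℕ) (ha : ¬ Detected.{v} H a) :
    ¬ Detected.{v} H (a ^ n) := by
  intro h
  apply ha
  intro H0 hH0 hh
  obtain ⟨r, s, hT, hs⟩ := h H0 hH0 (pow_mem hh n)
  refine ⟨r, s, hT, fun k hk h1 => hs k hk ?_⟩
  have e : (⟨a ^ n, pow_mem hh n⟩ : H0) = ⟨a, hh⟩ ^ n := rfl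
  rw [e, map_pow, ← pow_mul, mul_comm, pow_mul, h1, one_pow]

theorem det_one {H : Type w} [Group H] : ¬ Detected.{v} H (1 : H) := by
  intro h
  obtain ⟨r, s, hT, hs⟩ := h ⊥ ⟨∅, by simp⟩ (one_mem _)
  apply hs 1 one_pos
  have e : (⟨1, one_mem _⟩ : (⊥ : Subgroup H)) = 1 := rfl
  rw [e, map_one, one_pow]

theorem det_conj' {H : Type w} [Group H] {a : H} (c : H) (h : Detected.{v} H (c * a * c⁻¹)) :
    Detected.{v} H a := by
  intro H0 hH0 hh
  have hFG : (H0.map (MulAut.conj c).toMonoidHom).FG := by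
    obtain ⟨S, hS⟩ := hH0
    classical
    refine ⟨S.image (MulAut.conj c), ?_⟩
    rw [Finset.coe_image, ← hS, MonoidHom.map_closure]
    rfl
  obtain ⟨r, s, hT, hs⟩ := h (H0.map (MulAut.conj c).toMonoidHom) hFG
    ⟨a, hh, rfl⟩
  let e : H0 →* H0.map (MulAut.conj c).toMonoidHom :=
    ((MulAut.conj c).toMonoidHom.comp H0.subtype).codRestrict _ (fun x => ⟨x, x.2, rfl⟩)
  exact ⟨r, s.comp e, hT, hs⟩

theorem det_conj {H : Type w} [Group H] {a : H} (c : H) (ha : ¬ Detected.{v} H a) :
    ¬ Detected.{v} H (c * a * c⁻¹) := fun h => ha (det_conj' c h)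

/-- The rank vanishes at detected elements. -/
theorem tf_detected {R : Type u} [CommRing R] [IsDomain R] {H : Type w} [Group H] {n : ℕ}
    (A : Matrix (Fin n) (Fin n) (MonoidAlgebra R H)) (hA : A * A = A) (g : H)
    (hg : Detected.{v} H g) : tf (ind R g) A = 0 := by
  by_contra hne
  obtain ⟨H0, hH0, B, hB, h, hconj, hne'⟩ := exists_local A hA g hne
  apply hne'
  obtain ⟨c, hc⟩ := isConj_iff.1 hconj
  have hdet : Detected.{v} H (h : H) := by
    apply det_conj' c
    rw [hc]
    exact hg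
  obtain ⟨⟨X, I, T, _, N, _⟩, s, htame, hs⟩ := hdet H0 hH0 h.2
  have hN : ∀ i (t : T i), ofT i t ∈ N → t = 1 := fun i t ht =>
    (htame i t).1 ((QuotientGroup.eq_one_iff _).2 ht)
  have hT : ∀ i (t : T i), (∃ n : ℕ, 0 < n ∧ t ^ n = 1) ∨
      ∀ m : ℕ, 2 ≤ m → ¬ IsConj (QuotientGroup.mk (ofT i t) : FP X I T ⧸ N)
        (QuotientGroup.mk (ofT i t) ^ m) := by
    intro i t
    by_cases hf : ∃ n : ℕ, 0 < n ∧ t ^ n = 1
    · exact Or.inl hf
    · exact Or.inr ((htame i t).2 fun n hn h1 => hf ⟨n, hn, h1⟩)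
  apply tf_zero_of_good B hB h
  apply good_of_hom s h
  apply good_of_noPower
  intro m hm hc
  obtain ⟨n, hn, h1⟩ := finite_of_conj_pow N hN hT (s h) m hm hc
  exact hs n hn h1

/-- Extensions. -/
theorem bass_ext (R : Type u) [CommRing R] [IsDomain R] (H : Type w) [Group H] (K : Subgroup H)
    [K.Normal] (hK : ∀ h k : H, k ∈ K → InfOrd h → ¬ Detected.{v} H h →
      ¬ Detected.{v} H (h * k) → IsConj h (h * k)) (hQ : BassFor R (H ⧸ K)) : BassFor R H := by
  classical
  intro n A hA g hg
  have hA' : A * A = A := hA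
  change tau A g = 0
  rw [tau_eq]
  by_cases hfin : orderOf g = 0
  swap
  · exact tf_zero_of_finite A hA' g hfin hg
  by_cases hd : Detected.{v} H g
  · exact tf_detected A hA' g hd
  have hinf : ∀ n : ℕ, 0 < n → g ^ n ≠ 1 := orderOf_eq_zero_iff'.1 hfin
  -- the quotient
  let π : H →* H ⧸ K := QuotientGroup.mk' K
  have hord : orderOf (π g) = 0 := by
    rw [orderOf_eq_zero_iff']
    intro j hj h1
    rw [← map_pow] at h1
    have h2 : g ^ j ∈ K := (QuotientGroup.eq_one_iff _).1 h1
    have h3 := hK (g ^ j) (g ^ j)⁻¹ (inv_mem h2) (by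
      intro n hn h3
      rw [← pow_mul] at h3
      exact hinf _ (Nat.mul_pos hj hn) h3) (det_pow j hd) (by
      rw [mul_inv_cancel]
      exact det_one)
    rw [mul_inv_cancel] at h3
    exact hinf j hj (isConj_one_right.1 h3.symm)
  have hB : A.map (mapDomainRingHom R π) * A.map (mapDomainRingHom R π) =
      A.map (mapDomainRingHom R π) := by
    rw [← Matrix.map_mul, hA']
  have h1 := hQ n (A.map (mapDomainRingHom R π)) hB (π g) (by
    rw [hord, Nat.cast_zero]; exact not_isUnit_zero)
  change tau (A.map (mapDomainRingHom R π)) (π g) = 0 at h1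
  rw [tau_eq, tf_apply] at h1
  have h2 : ell (fun h => ind R (π g) (π h)) (∑ i, A i i) = 0 := by
    rw [map_sum, ← h1]
    apply Finset.sum_congr rfl
    intro i _
    exact (ell_map π (ind R (π g)) (A i i)).symm
  have h3 : ell (fun h => ind R (π g) (π h) - ind R g h) (∑ i, A i i) = 0 := by
    apply ell_class
    · intro a b hab
      have e1 : ind R (π g) (π a) = ind R (π g) (π b) := by
        have hab' : IsConj (π a) (π b) := MonoidHom.map_isConj π hab
        unfold ind
        by_cases h : IsConj (π a) (π g)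
        · rw [if_pos h, if_pos (hab'.symm.trans h)]
        · rw [if_neg h, if_neg (fun h' => h (hab'.trans h'))]
      have e2 : ind R g a = ind R g b := by
        unfold ind
        by_cases h : IsConj a g
        · rw [if_pos h, if_pos (hab.symm.trans h)]
        · rw [if_neg h, if_neg (fun h' => h (hab.trans h'))]
      rw [e1, e2]
    · intro h hh
      have h5 : tf (ind R h) A = 0 := by
        apply tf_detected.{u, v, w} A hA' h
        by_contra hnd
        apply hh
        have h4 : IsConj (π h) (π g) ↔ IsConj h g := by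
          refine ⟨fun h4 => ?_, fun h4 => MonoidHom.map_isConj π h4⟩
          obtain ⟨c, hc⟩ := isConj_iff.1 h4
          obtain ⟨c, rfl⟩ := QuotientGroup.mk_surjective c
          have h5 : π (g⁻¹ * (c * h * c⁻¹)) = 1 := by
            rw [map_mul, map_mul, map_mul, map_inv, map_inv, inv_mul_eq_one]
            exact hc.symm
          have h6 : g⁻¹ * (c * h * c⁻¹) ∈ K := (QuotientGroup.eq_one_iff _).1 h5
          have h7 := hK g _ h6 hinf hd (by
            rw [mul_inv_cancel_left]
            exact det_conj c hnd)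
          rw [mul_inv_cancel_left] at h7
          exact (isConj_iff.2 ⟨c, rfl⟩ : IsConj h (c * h * c⁻¹)).trans h7.symm
        unfold ind
        by_cases h5 : IsConj h g
        · rw [if_pos h5, if_pos (h4.2 h5), sub_self]
        · rw [if_neg h5, if_neg (fun h6 => h5 (h4.1 h6)), sub_self]
      rw [tf_apply] at h5
      rw [map_sum]
      exact h5
  have h4 : ell (ind R g) (∑ i, A i i) = 0 := by
    have hs : ∀ y, (∑ i, A i i).coeff y ≠ 0 → y ∈ (∑ i, A i i).coeff.support := fun y hy =>
      Finsupp.mem_support_iff.2 hy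
    rw [ell_eq_sum _ _ _ hs] at h2 h3 ⊢
    have h6 : ∑ y ∈ (∑ i, A i i).coeff.support, (∑ i, A i i).coeff y * ind R g y =
        ∑ y ∈ (∑ i, A i i).coeff.support, (∑ i, A i i).coeff y * ind R (π g) (π y) -
        ∑ y ∈ (∑ i, A i i).coeff.support,
          (∑ i, A i i).coeff y * (ind R (π g) (π y) - ind R g y) := by
      rw [← Finset.sum_sub_distrib]
      apply Finset.sum_congr rfl
      intro y _
      ring
    rw [h6, h2, h3, sub_zero]
  rw [tf_apply, ← map_sum]
  exact h4

/-- The case `K = H`. -/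
theorem bass_detect (R : Type u) [CommRing R] [IsDomain R] (H : Type w) [Group H]
    (hH : ∀ h : H, InfOrd h → Detected.{v} H h) : BassFor R H := by
  intro n A hA g hg
  have hA' : A * A = A := hA
  change tau A g = 0
  rw [tau_eq]
  by_cases hfin : orderOf g = 0
  · exact tf_detected.{u, v, w} A hA' g (hH g (orderOf_eq_zero_iff'.1 hfin))
  · exact tf_zero_of_finite A hA' g hfin hg

/-- Invariance under isomorphisms. -/
theorem bass_iso {R : Type u} [CommRing R] [IsDomain R] {G : Type v} {G' : Type w} [Group G]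
    [Group G'] (e : G ≃* G') (h : BassFor R G) : BassFor R G' := by
  intro n A hA g hg
  change tau A g = 0
  rw [tau_eq]
  have hA' : A * A = A := hA
  have hB : A.map (mapDomainRingHom R e.symm.toMonoidHom) *
      A.map (mapDomainRingHom R e.symm.toMonoidHom) =
      A.map (mapDomainRingHom R e.symm.toMonoidHom) := by
    rw [← Matrix.map_mul, hA']
  have hord : orderOf (e.symm g) = orderOf g := MulEquiv.orderOf_eq e.symm g
  have h1 := h n (A.map (mapDomainRingHom R e.symm.toMonoidHom)) hB (e.symm g)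
    (by rw [hord]; exact hg)
  change tau (A.map (mapDomainRingHom R e.symm.toMonoidHom)) (e.symm g) = 0 at h1
  rw [tau_eq, tf_apply] at h1
  rw [tf_apply, ← h1]
  apply Finset.sum_congr rfl
  intro i _
  rw [Matrix.map_apply, ell_map]
  congr 2
  funext x
  unfold ind
  have h2 : IsConj (e.symm.toMonoidHom x) (e.symm g) ↔ IsConj x g := by
    constructor
    · intro h3
      have h4 := MonoidHom.map_isConj e.toMonoidHom h3
      have e1 : e.toMonoidHom (e.symm.toMonoidHom x) = x := e.apply_symm_apply x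
      have e2 : e.toMonoidHom (e.symm g) = g := e.apply_symm_apply g
      rwa [e1, e2] at h4
    · intro h3
      exact MonoidHom.map_isConj e.symm.toMonoidHom h3
  by_cases h3 : IsConj x g
  · rw [if_pos h3, if_pos (h2.2 h3)]
  · rw [if_neg h3, if_neg (fun h4 => h3 (h2.1 h4))]

/-- The special case of a product of a group and `F / [N, N]`. -/
theorem bass_prod (R : Type u) [CommRing R] [IsDomain R] (X : Type v)
    (N : Subgroup (FreeGroup X)) [N.Normal] (T : Type w) [Group T] (hT : BassFor R T) :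
    BassFor R (T × (FreeGroup X ⧸ ⁅N, N⁆)) := by
  obtain ⟨N', _, φ, hφ⟩ := exists_inj N
  let K : Subgroup (T × (FreeGroup X ⧸ ⁅N, N⁆)) := (MonoidHom.fst T (FreeGroup X ⧸ ⁅N, N⁆)).ker
  have e : (T × (FreeGroup X ⧸ ⁅N, N⁆)) ⧸ K ≃* T :=
    QuotientGroup.quotientKerEquivOfSurjective (MonoidHom.fst T (FreeGroup X ⧸ ⁅N, N⁆))
      Prod.fst_surjective
  have hdet : ∀ z : T × (FreeGroup X ⧸ ⁅N, N⁆), ¬ Detected.{v} _ z → z.2 = 1 := by
    intro z hz
    by_contra hne
    apply hz
    intro H0 hH0 hh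
    refine ⟨⟨X, PEmpty, TT, inferInstance, N', inferInstance⟩,
      (φ.comp (MonoidHom.snd T (FreeGroup X ⧸ ⁅N, N⁆))).comp H0.subtype,
      fun i => i.elim, ?_⟩
    intro n hn h1
    have h2 : φ z.2 = 1 := by
      apply one_of_conj_pow N' (fun i => i.elim) (φ z.2) (n + 1) (by omega)
      have h3 : φ z.2 ^ n = 1 := h1
      rw [pow_succ, h3, one_mul]
    exact hne (hφ (by rw [h2, map_one]))
  apply bass_ext.{u, v, max v w} R _ K
  · rintro h k hk hinf hd hd'
    have h1 := hdet _ hd
    have h2 := hdet _ hd'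
    have h3 : k.1 = 1 := hk
    have h4 : k.2 = 1 := by
      have h5 : (h * k).2 = h.2 * k.2 := rfl
      rw [h5, h1, one_mul] at h2
      exact h2
    have h5 : k = 1 := Prod.ext h3 h4
    rw [h5, mul_one]
    exact IsConj.refl h
  · exact bass_iso e.symm hT

end Pool.Agent.Y75.BF
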